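import Pool.Agent.helper19.MX.SpecD
import Pool.Agent.helper2.AU.QH4

set_option autoImplicit false

namespace MX

open Pool.Agent.helper53.AU AN
open scoped Classical Topology IntermediateField
open IntermediateField (fixedField)

theorem RHG (hQF11 : QF11_stmt) (hQE1 : QE1_stmt) (hQE2 : QE2_stmt) (hQE3 : QE3_stmt)
    (hQE4 : QE4_stmt) (hQE5 : QE5_stmt) (hQE6 : QE6_stmt) (hQH1 : QH1_stmt) (hQH3 : QH3_stmt) :
    RHG_stmt := by
  intro k F _ _ _ _ hF g hg H hH γ hγ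
  have _ := hH
  obtain ⟨hE, -, -⟩ := hQE1 k F hF H hH
  obtain ⟨D, D₀, hD, hD₀, hinv, hres⟩ := hQE6 k F hF H hH
  obtain ⟨x, hx⟩ : ∃ x, D₀ x ≠ 0 := by
    by_contra h
    push Not at h
    exact hD₀ (Derivation.ext h)
  have hDx : D (x : F) ≠ 0 := by
    rw [← hres]
    simpa using hx
  obtain ⟨hfinF, hsumF⟩ := hQH1 k F hF g hg D (x : F) hDx
  obtain ⟨hfinE, hsumE⟩ := hQH1 k (fixedField H) hE γ hγ D₀ x hx
  choose π e hπ using fun P => (hQE2 k F hF H hH P).1
  have he : ∀ P, e P = stabCard H P := fun P => hQE5 k F hF H hH P (π P) (e P) (hπ P)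
  have hsurj : ∀ Q, ∃ P, π P = Q := by
    intro Q
    obtain ⟨P, e', h⟩ := hQE3 k F hF H hH Q
    exact ⟨P, ((hQE2 k F hF H hH P).2 _ _ _ _ (hπ P) h).1⟩
  have horb : ∀ P P' : Place k F, π P' = π P ↔ ∃ s ∈ H, P' = s • P := by
    intro P P'
    have h4 := (hQE4 k F hF H hH P P' (π P) (e P) (hπ P)).1
    rw [← h4]
    constructor
    · intro h
      exact ⟨e P', h ▸ hπ P'⟩
    · rintro ⟨e', h⟩
      exact ((hQE2 k F hF H hH P').2 _ _ _ _ (hπ P') h).1
  have hconst : ∀ P P' : Place k F, π P' = π P → e P' = e P := by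
    intro P P' h
    obtain ⟨s, hs, rfl⟩ := (horb P P').1 h
    have h5 := (hQE4 k F hF H hH P P (π P) (e P) (hπ P)).2 s hs
    exact ((hQE2 k F hF H hH (s • P)).2 _ _ _ _ (hπ _) h5).2
  obtain ⟨hfin1, hsum1⟩ := QH4_conorm H π e he hsurj horb hconst
    (fun Q : Place k (fixedField H) => Q.dord D₀ x) hfinE
  set d : Place k F → ℤ := fun P => ∑ᶠ s : H,
    if (s : F ≃ₐ[k] F) ≠ 1 ∧ (s : F ≃ₐ[k] F) • P = P then ((P.jump s : ℤ) + 1) else 0 with hd
  have hkey : ∀ P : Place k F, P.dord D (x : F) = (e P : ℤ) * (π P).dord D₀ x + d P := by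
    intro P
    have h3 := hQH3 k F hF H hH P (π P) (e P) (hπ P) D D₀ hD hD₀ hinv hres
    have h4 : P.ord (D (x : F)) = (e P : ℤ) * (π P).ord (D₀ x) := by
      rw [← hres]
      exact (hπ P).2 (D₀ x)
    rw [hd]
    simp only [Place.dord]
    rw [← h3, h4]
    ring
  have hdfin : (Function.support d).Finite := by
    have hfix : (⋃ s ∈ {s : F ≃ₐ[k] F | s ∈ H ∧ s ≠ 1}, {P : Place k F | s • P = P}).Finite := by
      refine Set.Finite.biUnion ?_ fun s hs => hQF11 k F hF s hs.2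
      exact (Set.toFinite (H : Set (F ≃ₐ[k] F))).subset fun s hs => hs.1
    refine hfix.subset ?_
    intro P hP
    by_contra hcon
    apply hP
    have : ∀ s : H, (if (s : F ≃ₐ[k] F) ≠ 1 ∧ (s : F ≃ₐ[k] F) • P = P then
        ((P.jump s : ℤ) + 1) else 0) = 0 := by
      intro s
      rw [if_neg]
      rintro ⟨h1, h2⟩
      apply hcon
      simp only [Set.mem_iUnion, Set.mem_ofPred_eq, exists_prop]
      exact ⟨s, ⟨s.2, h1⟩, h2⟩
    rw [hd]
    simp only [this, finsum_zero]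
  have hsplit : ∑ᶠ P : Place k F, P.dord D (x : F) =
      ∑ᶠ P : Place k F, (e P : ℤ) * (π P).dord D₀ x + ∑ᶠ P : Place k F, d P := by
    rw [← finsum_add_distrib hfin1 hdfin]
    exact finsum_congr hkey
  rw [← hsumF, hsplit, hsum1, hsumE]

end MX
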