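import Pool.Agent.helper19.MX.SpecC

set_option autoImplicit false

namespace MX

open Pool.Agent.helper53.AU AN
open scoped Classical Topology IntermediateField

theorem RTS_key (k : Type) [Field k] [IsAlgClosed k] [CharP k 2] (n : ℕ) (hn : 0 < n) :
    ∃ R : Finset k, R.card = 4 ^ n ∧ ∀ c : k, c ∈ R ↔ c ^ (4 ^ n) = c := by
  have hq : 1 < 4 ^ n := Nat.one_lt_pow hn.ne' (by norm_num)
  have hq0 : ((4 ^ n : ℕ) : k) = 0 := by
    rw [CharP.cast_eq_zero_iff k 2]
    exact dvd_pow (by norm_num) hn.ne'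
  have hd : (Polynomial.X ^ (4 ^ n) - Polynomial.X : Polynomial k).natDegree = 4 ^ n :=
    FiniteField.X_pow_card_sub_X_natDegree_eq k hq
  have hne : (Polynomial.X ^ (4 ^ n) - Polynomial.X : Polynomial k) ≠ 0 :=
    FiniteField.X_pow_card_sub_X_ne_zero k hq
  have hsep : (Polynomial.X ^ (4 ^ n) - Polynomial.X : Polynomial k).Separable :=
    galois_poly_separable 2 (4 ^ n) (dvd_pow (by norm_num) hn.ne')
  refine ⟨(Polynomial.X ^ (4 ^ n) - Polynomial.X : Polynomial k).roots.toFinset, ?_, ?_⟩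
  · rw [Multiset.toFinset_card_of_nodup (Polynomial.nodup_roots hsep)]
    exact (Polynomial.splits_iff_card_roots.1
      (IsAlgClosed.splits (Polynomial.X ^ (4 ^ n) - Polynomial.X : Polynomial k))).trans hd
  · intro c
    rw [Multiset.mem_toFinset, Polynomial.mem_roots hne, Polynomial.IsRoot.def, Polynomial.eval_sub,
      Polynomial.eval_pow, Polynomial.eval_X, sub_eq_zero]

theorem RTS : RTS_stmt := fun k _ _ _ n hn => RTS_key k n hn

end MX
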